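import Mathlib

namespace Pool.Agent.Results.MP_3f93e8_co.K33

open MeasureTheory Filter

/-- The length of the intersection of the closed intervals `[a, b]` and `[a', b']`
(Lebesgue measure, so it is zero when the intersection is empty). -/
noncomputable def overlap (a b a' b' : ℝ) : ℝ :=
  (volume (Set.Icc a b ∩ Set.Icc a' b')).toReal

/-- `G` is a `φ`-tolerance graph: there are closed bounded intervals `[a v, b v]` and positive
tolerances `t v` such that distinct `u`, `v` are adjacent iff `|I_u ∩ I_v| ≥ φ (t u) (t v)`. -/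
def IsPhiTolerance {V : Type} (φ : ℝ → ℝ → ℝ) (G : SimpleGraph V) : Prop :=
  ∃ a b t : V → ℝ, (∀ v, a v ≤ b v) ∧ (∀ v, 0 < t v) ∧
    ∀ u v, u ≠ v → (G.Adj u v ↔ φ (t u) (t v) ≤ overlap (a u) (b u) (a v) (b v))

/-- The class `Φ`: symmetric positive-valued Archimedean functions of two positive reals. -/
structure IsArchimedeanFunction (φ : ℝ → ℝ → ℝ) : Prop where
  symm : ∀ x y, 0 < x → 0 < y → φ x y = φ y x
  pos : ∀ x y, 0 < x → 0 < y → 0 < φ x y
  tendsto_left : ∀ c, 0 < c → Tendsto (fun x => φ x c) atTop atTop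
  tendsto_right : ∀ c, 0 < c → Tendsto (fun x => φ c x) atTop atTop

/-- `G` is Archimedean: it is a `φ`-tolerance graph for every `φ` in `Φ`. -/
def IsArchimedeanGraph {V : Type} (G : SimpleGraph V) : Prop :=
  ∀ φ, IsArchimedeanFunction φ → IsPhiTolerance φ G

lemma overlap_eq (a b a' b' : ℝ) : overlap a b a' b' = max (min b b' - max a a') 0 := by
  unfold overlap
  rw [Set.Icc_inter_Icc, Real.volume_Icc, ENNReal.toReal_ofReal']

lemma max_archimedean : IsArchimedeanFunction (fun x y => max x y) where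
  symm x y _ _ := max_comm x y
  pos _ _ hx _ := lt_max_of_lt_left hx
  tendsto_left c _ := tendsto_atTop_mono (fun x => le_max_left x c) tendsto_id
  tendsto_right c _ := tendsto_atTop_mono (fun x => le_max_right c x) tendsto_id

/-- Some coordinate puts `z` strictly above both `x` and `y`. -/
def Above {V : Type} (c : Fin 3 → V → ℝ) (x y z : V) : Prop :=
  ∃ i, c i x < c i z ∧ c i y < c i z

lemma fin3_cases : ∀ i j k : Fin 3, i ≠ j → i ≠ k → j ≠ k → ∀ l, l = i ∨ l = j ∨ l = k := by
  decide

lemma above_cases {V : Type} {c : Fin 3 → V → ℝ} {i j k : Fin 3}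
    (hij : i ≠ j) (hik : i ≠ k) (hjk : j ≠ k) {x y z : V} (h : Above c x y z) :
    (c i x < c i z ∧ c i y < c i z) ∨ (c j x < c j z ∧ c j y < c j z) ∨
      (c k x < c k z ∧ c k y < c k z) := by
  obtain ⟨l, hl⟩ := h
  rcases fin3_cases i j k hij hik hjk l with rfl | rfl | rfl
  · exact Or.inl hl
  · exact Or.inr (Or.inl hl)
  · exact Or.inr (Or.inr hl)

/-- Two coordinates have the same top element. -/
lemma core_same {V : Type} {c : Fin 3 → V → ℝ} {i j k : Fin 3}
    (hij : i ≠ j) (hik : i ≠ k) (hjk : j ≠ k) {t x x' : V}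
    (hi : ∀ v, c i v ≤ c i t) (hj : ∀ v, c j v ≤ c j t)
    (h1 : Above c t x x') (h2 : Above c t x' x) : False := by
  have ix := hi x; have ix' := hi x'; have jx := hj x; have jx' := hj x'
  rcases above_cases hij hik hjk h1 with ⟨a, b⟩ | ⟨a, b⟩ | ⟨a, b⟩
  · linarith
  · linarith
  · rcases above_cases hij hik hjk h2 with ⟨a', b'⟩ | ⟨a', b'⟩ | ⟨a', b'⟩
    · linarith
    · linarith
    · linarith

/-- The three top elements are distinct and on one side. -/
lemma core_line {V : Type} {c : Fin 3 → V → ℝ} {i j k : Fin 3}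
    (hij : i ≠ j) (hik : i ≠ k) (hjk : j ≠ k) {p q r w w' : V}
    (hi : ∀ v, c i v ≤ c i p) (hj : ∀ v, c j v ≤ c j q) (hk : ∀ v, c k v ≤ c k r)
    (h1 : Above c p w w') (h2 : Above c p w' w)
    (h3 : Above c q w w') (h4 : Above c q w' w)
    (h5 : Above c r w w') (h6 : Above c r w' w) : False := by
  have i1 := hi w; have i2 := hi w'; have j1 := hj w; have j2 := hj w'
  have k1 := hk w; have k2 := hk w'
  rcases above_cases hij hik hjk h1 with ⟨a1, b1⟩ | ⟨a1, b1⟩ | ⟨a1, b1⟩ <;>
  rcases above_cases hij hik hjk h2 with ⟨a2, b2⟩ | ⟨a2, b2⟩ | ⟨a2, b2⟩ <;>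
  first
  | linarith
  | (rcases above_cases hij hik hjk h3 with ⟨a3, b3⟩ | ⟨a3, b3⟩ | ⟨a3, b3⟩ <;>
     rcases above_cases hij hik hjk h4 with ⟨a4, b4⟩ | ⟨a4, b4⟩ | ⟨a4, b4⟩ <;>
     first
     | linarith
     | (rcases above_cases hij hik hjk h5 with ⟨a5, b5⟩ | ⟨a5, b5⟩ | ⟨a5, b5⟩ <;>
        rcases above_cases hij hik hjk h6 with ⟨a6, b6⟩ | ⟨a6, b6⟩ | ⟨a6, b6⟩ <;>
        linarith))

/-- Two top elements `p`, `q` on one side and the third one, `r`, on the other side; here the
two remaining elements of the side of `r` satisfy `w' < w` in coordinate `i`. -/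
lemma core_mixed' {V : Type} {c : Fin 3 → V → ℝ} {i j k : Fin 3}
    (hij : i ≠ j) (hik : i ≠ k) (hjk : j ≠ k) {p q u r w w' : V}
    (hi : ∀ v, c i v ≤ c i p) (hj : ∀ v, c j v ≤ c j q) (hk : ∀ v, c k v ≤ c k r)
    (hw : c i w' < c i w)
    (h2 : Above c p w' w)
    (h3 : Above c q w w')
    (h5 : Above c u w w')
    (h6 : Above c p w' u) (h7 : Above c q w' u) (h8 : Above c u r w') : False := by
  have i1 := hi w; have i2 := hi w'; have i3 := hi u; have i4 := hi r
  have j1 := hj w; have j2 := hj w'; have j3 := hj u; have j4 := hj r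
  have k1 := hk w; have k2 := hk w'; have k3 := hk u
  -- `w' > w` in coordinate `k`
  have e1 : c k w < c k w' ∧ c k q < c k w' := by
    rcases above_cases hij hik hjk h3 with ⟨a, b⟩ | ⟨a, b⟩ | ⟨a, b⟩
    · linarith
    · linarith
    · exact ⟨b, a⟩
  -- `w > w'` in coordinate `j`
  have e2 : c j w' < c j w := by
    rcases above_cases hij hik hjk h2 with ⟨a, b⟩ | ⟨a, b⟩ | ⟨a, b⟩
    · linarith
    · exact b
    · linarith [e1.1]
  -- `w' > u` in coordinate `k`
  have e3 : c k u < c k w' := by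
    rcases above_cases hij hik hjk h5 with ⟨a, b⟩ | ⟨a, b⟩ | ⟨a, b⟩
    · linarith
    · linarith
    · exact a
  have e4 : c j w' < c j u := by
    rcases above_cases hij hik hjk h6 with ⟨a, b⟩ | ⟨a, b⟩ | ⟨a, b⟩
    · linarith
    · exact b
    · linarith
  have e5 : c i w' < c i u := by
    rcases above_cases hij hik hjk h7 with ⟨a, b⟩ | ⟨a, b⟩ | ⟨a, b⟩
    · exact b
    · linarith
    · linarith
  rcases above_cases hij hik hjk h8 with ⟨a, b⟩ | ⟨a, b⟩ | ⟨a, b⟩
  · linarith
  · linarith
  · linarith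

/-- Two top elements on one side, the third one on the other side. -/
lemma core_mixed {V : Type} {c : Fin 3 → V → ℝ} {i j k : Fin 3}
    (hij : i ≠ j) (hik : i ≠ k) (hjk : j ≠ k) {p q u r w w' : V}
    (hi : ∀ v, c i v ≤ c i p) (hj : ∀ v, c j v ≤ c j q) (hk : ∀ v, c k v ≤ c k r)
    (h1 : Above c p w w') (h2 : Above c p w' w)
    (h3 : Above c q w w') (h4 : Above c q w' w)
    (h5 : Above c u w w') (h6 : Above c u w' w)
    (h7 : Above c p w' u) (h8 : Above c q w' u) (h9 : Above c u r w')
    (h10 : Above c p w u) (h11 : Above c q w u) (h12 : Above c u r w) : False := by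
  have i1 := hi w; have i2 := hi w'
  have j1 := hj w; have j2 := hj w'
  rcases lt_trichotomy (c i w) (c i w') with h | h | h
  · exact core_mixed' hij hik hjk hi hj hk h h1 h4 h6 h10 h11 h12
  · rcases above_cases hij hik hjk h3 with ⟨a, b⟩ | ⟨a, b⟩ | ⟨a, b⟩
    · linarith
    · linarith
    · rcases above_cases hij hik hjk h4 with ⟨a', b'⟩ | ⟨a', b'⟩ | ⟨a', b'⟩
      · linarith
      · linarith
      · linarith
  · exact core_mixed' hij hik hjk hi hj hk h h2 h3 h5 h7 h8 h9

abbrev W := Fin 3 ⊕ Fin 3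

lemma pick_other : ∀ t : W, ∃ x x' : W, x ≠ x' ∧ x.isLeft ≠ t.isLeft ∧ x'.isLeft ≠ t.isLeft := by
  decide

lemma pick_third : ∀ p q : W, p.isLeft = q.isLeft → p ≠ q →
    ∃ u : W, u.isLeft = p.isLeft ∧ u ≠ p ∧ u ≠ q := by
  decide

lemma pick_two : ∀ r : W, ∃ w w' : W, w ≠ w' ∧ w.isLeft = r.isLeft ∧ w'.isLeft = r.isLeft ∧
    w ≠ r ∧ w' ≠ r := by
  decide

lemma ne_of_side {x y : W} (h : x.isLeft ≠ y.isLeft) : x ≠ y := fun e => h (by rw [e])

/-- No three real-valued functions on the vertex set of `K_{3,3}` have the property that for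
every edge `xy` and every further vertex `z` some of them is larger at `z` than at `x` and `y`. -/
lemma core {c : Fin 3 → W → ℝ}
    (H : ∀ x y z : W, x.isLeft ≠ y.isLeft → z ≠ x → z ≠ y → Above c x y z) : False := by
  have top : ∀ i, ∃ t : W, ∀ v, c i v ≤ c i t := fun i => Finite.exists_max (c i)
  choose t ht using top
  -- the tops of different coordinates differ
  have hne : ∀ i j k : Fin 3, i ≠ j → i ≠ k → j ≠ k → t i ≠ t j := by
    intro i j k hij hik hjk he
    obtain ⟨x, x', hx, h1, h2⟩ := pick_other (t i)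
    have hj := ht j
    rw [← he] at hj
    exact core_same hij hik hjk (ht i) hj
      (H (t i) x x' h1.symm (ne_of_side h2) hx.symm)
      (H (t i) x' x h2.symm (ne_of_side h1) hx)
  -- two tops on one side, the third on the other side
  have mixed : ∀ i j k : Fin 3, i ≠ j → i ≠ k → j ≠ k → (t i).isLeft = (t j).isLeft →
      (t k).isLeft ≠ (t i).isLeft → False := by
    intro i j k hij hik hjk he hd
    have hpq := hne i j k hij hik hjk
    obtain ⟨u, hu, hup, huq⟩ := pick_third (t i) (t j) he hpq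
    obtain ⟨w, w', hww, hw, hw', hwr, hwr'⟩ := pick_two (t k)
    have sp : (t i).isLeft ≠ w.isLeft := by rw [hw]; exact hd.symm
    have sp' : (t i).isLeft ≠ w'.isLeft := by rw [hw']; exact hd.symm
    have sq : (t j).isLeft ≠ w.isLeft := by rw [← he]; exact sp
    have sq' : (t j).isLeft ≠ w'.isLeft := by rw [← he]; exact sp'
    have su : u.isLeft ≠ w.isLeft := by rw [hu]; exact sp
    have su' : u.isLeft ≠ w'.isLeft := by rw [hu]; exact sp'
    have sr : u.isLeft ≠ (t k).isLeft := by rw [hu]; exact hd.symm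
    exact core_mixed hij hik hjk (ht i) (ht j) (ht k) (u := u) (w := w) (w' := w')
      (H _ _ _ sp (ne_of_side sp'.symm) hww.symm)
      (H _ _ _ sp' (ne_of_side sp.symm) hww)
      (H _ _ _ sq (ne_of_side sq'.symm) hww.symm)
      (H _ _ _ sq' (ne_of_side sq.symm) hww)
      (H _ _ _ su (ne_of_side su'.symm) hww.symm)
      (H _ _ _ su' (ne_of_side su.symm) hww)
      (H _ _ _ sp' hup (ne_of_side su'))
      (H _ _ _ sq' huq (ne_of_side su'))
      (H _ _ _ sr (ne_of_side su'.symm) hwr')
      (H _ _ _ sp hup (ne_of_side su))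
      (H _ _ _ sq huq (ne_of_side su))
      (H _ _ _ sr (ne_of_side su.symm) hwr)
  by_cases h01 : (t 0).isLeft = (t 1).isLeft
  · by_cases h02 : (t 2).isLeft = (t 0).isLeft
    · obtain ⟨w, w', hww, hw, hw'⟩ := pick_other (t 0)
      have a0 : (t 0).isLeft ≠ w.isLeft := hw.symm
      have a0' : (t 0).isLeft ≠ w'.isLeft := hw'.symm
      have a1 : (t 1).isLeft ≠ w.isLeft := by rw [← h01]; exact a0
      have a1' : (t 1).isLeft ≠ w'.isLeft := by rw [← h01]; exact a0'
      have a2 : (t 2).isLeft ≠ w.isLeft := by rw [h02]; exact a0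
      have a2' : (t 2).isLeft ≠ w'.isLeft := by rw [h02]; exact a0'
      exact core_line (i := 0) (j := 1) (k := 2) (by decide) (by decide) (by decide)
        (ht 0) (ht 1) (ht 2) (w := w) (w' := w')
        (H _ _ _ a0 (ne_of_side a0'.symm) hww.symm)
        (H _ _ _ a0' (ne_of_side a0.symm) hww)
        (H _ _ _ a1 (ne_of_side a1'.symm) hww.symm)
        (H _ _ _ a1' (ne_of_side a1.symm) hww)
        (H _ _ _ a2 (ne_of_side a2'.symm) hww.symm)
        (H _ _ _ a2' (ne_of_side a2.symm) hww)
    · exact mixed 0 1 2 (by decide) (by decide) (by decide) h01 h02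
  · by_cases h02 : (t 0).isLeft = (t 2).isLeft
    · exact mixed 0 2 1 (by decide) (by decide) (by decide) h02 (fun h => h01 h.symm)
    · have h12 : (t 1).isLeft = (t 2).isLeft := by
        revert h01 h02
        cases (t 0).isLeft <;> cases (t 1).isLeft <;> cases (t 2).isLeft <;> simp
      exact mixed 1 2 0 (by decide) (by decide) (by decide) h12 h01

lemma adj_iff (x y : W) :
    (completeBipartiteGraph (Fin 3) (Fin 3)).Adj x y ↔ x.isLeft ≠ y.isLeft := by
  rcases x with x | x <;> rcases y with y | y <;> simp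

/-- `K_{3,3}` is not a max-tolerance graph. -/
theorem not_maxTolerance :
    ¬ IsPhiTolerance (fun x y => max x y) (completeBipartiteGraph (Fin 3) (Fin 3)) := by
  rintro ⟨a, b, t, hab, ht, hadj⟩
  have key : ∀ u v : W, u ≠ v → ((completeBipartiteGraph (Fin 3) (Fin 3)).Adj u v ↔
      max (a u) (a v) + max (-b u) (-b v) + max (t u) (t v) ≤ 0) := by
    intro u v huv
    rw [hadj u v huv, overlap_eq]
    have hpos : 0 < max (t u) (t v) := lt_max_of_lt_left (ht u)
    have e : max (-b u) (-b v) = - min (b u) (b v) := by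
      rw [max_neg_neg]
    rw [e, le_max_iff]
    constructor
    · rintro (h | h)
      · linarith
      · exact absurd h (not_le.mpr hpos)
    · intro h
      left
      linarith
  -- the three coordinates
  let c : Fin 3 → W → ℝ := ![a, fun v => -b v, t]
  apply core (c := c)
  -- one half: `z` is on the side of `x`
  have half : ∀ x y z : W, x.isLeft ≠ y.isLeft → z ≠ x → z.isLeft = x.isLeft → Above c x y z := by
    intro x y z hxy hzx hz
    by_contra hno
    have hno' : ∀ i, c i z ≤ max (c i x) (c i y) := by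
      intro i
      by_contra hi
      rw [not_le, max_lt_iff] at hi
      exact hno ⟨i, hi⟩
    have h0 := hno' 0
    have h1 := hno' 1
    have h2 := hno' 2
    simp only [c, Matrix.cons_val_zero, Matrix.cons_val_one, Matrix.cons_val] at h0 h1 h2
    have adjxy : (completeBipartiteGraph (Fin 3) (Fin 3)).Adj x y := (adj_iff x y).mpr hxy
    have nadj : ¬ (completeBipartiteGraph (Fin 3) (Fin 3)).Adj x z := by
      rw [adj_iff, hz]
      exact fun h => h rfl
    rw [key x y (ne_of_side hxy)] at adjxy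
    rw [key x z hzx.symm] at nadj
    apply nadj
    have g0 : max (a x) (a z) ≤ max (a x) (a y) := max_le (le_max_left _ _) h0
    have g1 : max (-b x) (-b z) ≤ max (-b x) (-b y) := max_le (le_max_left _ _) h1
    have g2 : max (t x) (t z) ≤ max (t x) (t y) := max_le (le_max_left _ _) h2
    linarith
  intro x y z hxy hzx hzy
  by_cases hz : z.isLeft = x.isLeft
  · exact half x y z hxy hzx hz
  · have hz' : z.isLeft = y.isLeft := by
      revert hxy hz
      cases x.isLeft <;> cases y.isLeft <;> cases z.isLeft <;> simp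
    obtain ⟨i, h1, h2⟩ := half y x z hxy.symm hzy hz'
    exact ⟨i, h2, h1⟩

/-- The complete bipartite graph `K_{3,3}` is non-Archimedean. -/
theorem result : ¬ IsArchimedeanGraph (completeBipartiteGraph (Fin 3) (Fin 3)) :=
  fun h => not_maxTolerance (h _ max_archimedean)

end Pool.Agent.Results.MP_3f93e8_co.K33
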